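import Pool.Agent.Helper86.SG.Defs

set_option autoImplicit false

/-! Package CENC -/

open Finset

namespace Pool.Agent.Helper30.SG

open SJ (supp IsV dot fib)
open _root_.SG

theorem mem_supp {n : ℕ} (v : Fin n → ℤ) (i : Fin n) : i ∈ supp v ↔ v i ≠ 0 := by
  simp [supp]

/-- the set `B` -/
theorem exists_B {n : ℕ} (T S A : Finset (Fin n)) (m : ℕ) (hA : A ⊆ S) (hm : #A = m + 1)
    (hT : ¬ Disjoint S T) :
    ∃ B : Finset (Fin n), B ⊆ S ∧ #B = m + 1 ∧ (∃ t ∈ B, t ∈ T) ∧
      ∀ f ∈ B, f ∈ T → B.erase f ⊆ A := by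
  classical
  by_cases h : ∃ t ∈ A, t ∈ T
  · exact ⟨A, hA, hm, h, fun f _ _ => erase_subset _ _⟩
  · push Not at h
    obtain ⟨t, htS, htT⟩ := not_disjoint_iff.1 hT
    have hne : A.Nonempty := by
      rw [← card_pos, hm]; omega
    obtain ⟨a, ha⟩ := hne
    have htA : t ∉ A := fun h1 => h t h1 htT
    refine ⟨insert t (A.erase a), ?_, ?_, ⟨t, mem_insert_self _ _, htT⟩, ?_⟩
    · intro i hi
      rcases mem_insert.1 hi with rfl | hi
      · exact htS
      · exact hA (mem_of_mem_erase hi)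
    · rw [card_insert_of_notMem (fun h1 => htA (mem_of_mem_erase h1)), card_erase_of_mem ha, hm]
      omega
    · intro f hf hfT i hi
      rcases mem_insert.1 hf with rfl | hf
      · rcases mem_insert.1 (mem_of_mem_erase hi) with rfl | hi'
        · exact absurd rfl (ne_of_mem_erase hi)
        · exact mem_of_mem_erase hi'
      · exact absurd hfT (h f (mem_of_mem_erase hf))

/-- the core: `-x` has at most `d` disagreements with the centre -/
theorem core {n k d : ℕ} {F : Finset (Fin n → ℤ)} (hF : IndJ n k d F) {x : Fin n → ℤ} (hx : x ∈ F)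
    {B W : Finset (Fin n)} (hB : B ⊆ supp x) (hBc : #B = 2 * d + 2) (hW : Disjoint W (supp x))
    (hWn : W.Nonempty) (hc : #(B ∪ W) = k) {f : Fin n} (hfB : f ∈ B) {c : Fin n → ℤ}
    (hS : Str k d F (B ∪ W) f c) (hd : #((B.erase f).filter (fun i => - x i ≠ c i)) ≤ d) : False := by
  classical
  obtain ⟨_, hc1, hS⟩ := hS
  have hx1 := hF.1 x hx
  have hBW : ∀ i ∈ W, i ∉ B := fun i hi hi' => disjoint_left.1 hW hi (hB hi')
  set w : Fin n → ℤ := fun i => if i ∈ B then - x i else if i ∈ W then c i else 0 with hw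
  have hwB : ∀ i ∈ B, w i = - x i := fun i hi => by simp [hw, hi]
  have hwW : ∀ i ∈ W, w i = c i := fun i hi => by simp [hw, hi, hBW i hi]
  have hw0 : ∀ i, i ∉ B → i ∉ W → w i = 0 := fun i h1 h2 => by simp [hw, h1, h2]
  have hc0 : ∀ i, c i ≠ 0 := fun i => by rcases hc1 i with h | h <;> rw [h] <;> decide
  have hsupp : supp w = B ∪ W := by
    ext i
    rw [mem_supp, mem_union]
    by_cases h1 : i ∈ B
    · simp only [h1, true_or, iff_true, hwB i h1]
      exact neg_ne_zero.2 ((mem_supp x i).1 (hB h1))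
    · by_cases h2 : i ∈ W
      · simp only [h2, or_true, iff_true, hwW i h2]
        exact hc0 i
      · simp [h1, h2, hw0 i h1 h2]
  have hV : IsV n k w := by
    refine ⟨fun i => ?_, by rw [hsupp, hc]⟩
    by_cases h1 : i ∈ B
    · rw [hwB i h1]
      rcases hx1.1 i with h | h | h <;> rw [h] <;> decide
    · by_cases h2 : i ∈ W
      · rw [hwW i h2]
        rcases hc1 i with h | h <;> rw [h] <;> decide
      · rw [hw0 i h1 h2]; decide
  have hwF : w ∈ F := by
    rw [hS w hV hsupp]
    refine le_trans (card_le_card ?_) hd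
    intro i hi
    rw [mem_filter] at hi ⊢
    obtain ⟨h1, h2⟩ := hi
    have h3 := mem_of_mem_erase h1
    have h4 := ne_of_mem_erase h1
    rcases mem_union.1 h3 with h5 | h5
    · exact ⟨mem_erase.2 ⟨h4, h5⟩, by rwa [hwB i h5] at h2⟩
    · exact absurd (hwW i h5) h2
  have hne : w ≠ x := by
    obtain ⟨j, hj⟩ := hWn
    intro h
    have h1 : w j ≠ 0 := by rw [hwW j hj]; exact hc0 j
    rw [h] at h1
    exact disjoint_left.1 hW hj ((mem_supp x j).2 h1)
  refine hF.2 w hwF x hx hne ?_
  have h1 : dot w x = ∑ i ∈ B, w i * x i := by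
    unfold dot
    symm
    refine sum_subset (subset_univ _) fun i _ hi => ?_
    by_cases h2 : i ∈ W
    · have h3 : x i = 0 := by
        by_contra h4
        exact disjoint_left.1 hW h2 ((mem_supp x i).2 h4)
      rw [h3, mul_zero]
    · rw [hw0 i hi h2, zero_mul]
  have h2 : ∑ i ∈ B, w i * x i = ∑ i ∈ B, (-1 : ℤ) := by
    refine sum_congr rfl fun i hi => ?_
    rw [hwB i hi]
    have h3 := (mem_supp x i).1 (hB hi)
    rcases hx1.1 i with h | h | h
    · rw [h]; decide
    · exact absurd h h3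
    · rw [h]; decide
  rw [h1, h2, sum_const, hBc]
  simp only [smul_eq_mul, nsmul_eq_mul]
  push_cast
  ring

theorem cenc (hfib : FIBStm) : CENCStm := by
  classical
  intro n k d F hk hF T V hTV hV hS S hSk hST
  refine (hfib n k d F hk hF.1 S hSk ?_).1
  intro u hu v hv hus hvs
  by_contra hcon
  push Not at hcon
  obtain ⟨A, hA, hAc⟩ := exists_subset_card_eq (show 2 * d + 2 ≤ _ from hcon)
  have hAS : A ⊆ S := hA.trans (filter_subset _ _)
  have hopp : ∀ i ∈ A, v i = - u i := by
    intro i hi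
    obtain ⟨h1, h2⟩ := mem_filter.1 (hA hi)
    have h3 : u i ≠ 0 := by rw [← hus] at h1; exact (mem_supp u i).1 h1
    have h4 : v i ≠ 0 := by rw [← hvs] at h1; exact (mem_supp v i).1 h1
    rcases (hF.1 u hu).1 i with h | h | h <;> rcases (hF.1 v hv).1 i with h' | h' | h' <;>
      omega
  obtain ⟨B, hBS, hBc, ⟨t, htB, htT⟩, hBA⟩ := exists_B T S A (2 * d + 1) hAS hAc hST
  have hVS : k - (2 * d + 2) ≤ #(V \ S) := by
    have := le_card_sdiff S V
    omega
  obtain ⟨W, hW, hWc⟩ := exists_subset_card_eq hVS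
  have hWS : Disjoint W S := disjoint_left.2 fun i hi hi' => (mem_sdiff.1 (hW hi)).2 hi'
  have hBW : Disjoint B W := (hWS.mono_right hBS).symm
  have hWn : W.Nonempty := by rw [← card_pos, hWc]; omega
  have hc : #(B ∪ W) = k := by
    rw [card_union_of_disjoint hBW, hBc, hWc]; omega
  obtain ⟨f, hfT, c, hstr⟩ := hS (B ∪ W) hc
    (by
      obtain ⟨j, hj⟩ := hWn
      exact not_disjoint_iff.2 ⟨j, mem_union_right _ hj, (mem_sdiff.1 (hW hj)).1⟩)
    (not_disjoint_iff.2 ⟨t, mem_union_left _ htB, htT⟩)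
  have hfB : f ∈ B := by
    rcases mem_union.1 hstr.1 with h | h
    · exact h
    · exact absurd (mem_sdiff.1 (hW h)).1 (disjoint_left.1 hTV hfT)
  have hEA := hBA f hfB hfT
  have hsum : #((B.erase f).filter (fun i => - u i ≠ c i)) +
      #((B.erase f).filter (fun i => - v i ≠ c i)) = 2 * d + 1 := by
    have h1 : (B.erase f).filter (fun i => - v i ≠ c i) =
        (B.erase f).filter (fun i => ¬ (- u i ≠ c i)) := by
      refine filter_congr fun i hi => ?_
      rw [hopp i (hEA hi), neg_neg]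
      have h2 : u i ≠ 0 := by
        have := hAS (hEA hi)
        rw [← hus] at this
        exact (mem_supp u i).1 this
      rcases (hF.1 u hu).1 i with h | h | h
      · rcases hstr.2.1 i with h' | h' <;> rw [h, h'] <;> decide
      · exact absurd h h2
      · rcases hstr.2.1 i with h' | h' <;> rw [h, h'] <;> decide
    rw [h1, card_filter_add_card_filter_not, card_erase_of_mem hfB, hBc]
    omega
  rcases (show #((B.erase f).filter (fun i => - u i ≠ c i)) ≤ d ∨
    #((B.erase f).filter (fun i => - v i ≠ c i)) ≤ d by omega) with h | h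
  · exact core hF hu (hBS.trans hus.ge) hBc (by rw [hus]; exact hWS) hWn hc hfB hstr h
  · exact core hF hv (hBS.trans hvs.ge) hBc (by rw [hvs]; exact hWS) hWn hc hfB hstr h

end Pool.Agent.Helper30.SG
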